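import Mathlib

/-!
# A set of pairs with a non-free surviving-relation quotient

For `G = ℤ/12` there is a set `S` of 22 unordered pairs, with 11 surviving relations (up to inverses
and trivial ones), whose quotient `F_S / ⟨R_S⟩` has an element of order two. It was found from the
suspension of the six vertex triangulation of the projective plane, whose second homology has
torsion, by labelling the eight vertices with elements of `ℤ/12` and by removing pairs.
-/

set_option autoImplicit false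

namespace Pool.Agent.Results.MP_7c4268_al.NotFree

/-- The relation `r(g,h,k) = {h,k} {g,hk} {g,h}⁻¹ {gh,k}⁻¹`, written additively, in the free abelian
group `F_G` on the unordered pairs. -/
noncomputable def rel {G : Type*} [CommGroup G] (g h k : G) : Sym2 G →₀ ℤ :=
  Finsupp.single s(h, k) 1 + Finsupp.single s(g, h * k) 1 - Finsupp.single s(g, h) 1 -
    Finsupp.single s(g * h, k) 1

/-- The subgroup `F_S` of `F_G`. -/
noncomputable def freeOn {G : Type*} (S : Set (Sym2 G)) : AddSubgroup (Sym2 G →₀ ℤ) :=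
  AddSubgroup.closure {x | ∃ p ∈ S, x = Finsupp.single p 1}

/-- The set `R_S` of the surviving relations. -/
def survivingRelations {G : Type*} [CommGroup G] (S : Set (Sym2 G)) : Set (Sym2 G →₀ ℤ) :=
  {x | ∃ g h k : G, s(g, h) ∈ S ∧ s(g * h, k) ∈ S ∧ s(h, k) ∈ S ∧ s(g, h * k) ∈ S ∧
    x = rel g h k}

/-- The quotient `F_S / ⟨R_S⟩`. -/
abbrev SurvivingQuotient {G : Type*} [CommGroup G] (S : Set (Sym2 G)) : Type _ :=
  freeOn S ⧸ (AddSubgroup.closure (survivingRelations S)).addSubgroupOf (freeOn S)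

/-! ### The example -/

/-- The group. -/
abbrev G12 : Type := Multiplicative (ZMod 12)

/-- The pairs, as pairs of elements of `ZMod 12`. -/
def pairs : List (Sym2 (ZMod 12)) :=
  [s(1, 5), s(2, 3), s(2, 4), s(2, 7), s(2, 8), s(2, 11), s(3, 4), s(3, 8), s(3, 11), s(4, 5),
    s(4, 6), s(4, 9), s(4, 10), s(5, 5), s(5, 6), s(5, 8), s(6, 7), s(6, 11), s(7, 11), s(8, 10),
    s(10, 11), s(11, 11)]

/-- The set `S`. -/
def S12 : Set (Sym2 G12) := {p | p ∈ pairs}

/-- The pairs on which the character of order two is nontrivial. -/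
def special : List (Sym2 (ZMod 12)) := [s(2, 4), s(2, 7), s(3, 4)]

/-- The character on a pair. -/
def w (p : Sym2 (ZMod 12)) : ZMod 2 := if p ∈ special then 1 else 0

theorem w_rel : ∀ g h k : ZMod 12, s(g, h) ∈ pairs → s(g + h, k) ∈ pairs → s(h, k) ∈ pairs →
    s(g, h + k) ∈ pairs → w s(h, k) + w s(g, h + k) - w s(g, h) - w s(g + h, k) = 0 := by
  decide +kernel

/-- The character. -/
noncomputable def φ : (Sym2 G12 →₀ ℤ) →+ ZMod 2 :=
  Finsupp.liftAddHom fun p => zmultiplesHom (ZMod 2) (w p)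

theorem φ_single (p : Sym2 G12) : φ (Finsupp.single p 1) = w p := by
  simp [φ]

theorem φ_rel (x : Sym2 G12 →₀ ℤ) (hx : x ∈ AddSubgroup.closure (survivingRelations S12)) :
    φ x = 0 := by
  have h : AddSubgroup.closure (survivingRelations S12) ≤ φ.ker := by
    rw [AddSubgroup.closure_le]
    rintro _ ⟨g, h, k, h1, h2, h3, h4, rfl⟩
    change φ (rel g h k) = 0
    rw [rel, map_sub, map_sub, map_add, φ_single, φ_single, φ_single, φ_single]
    exact w_rel g h k h1 h2 h3 h4
  exact h hx

/-- The generator of a pair. -/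
noncomputable def e (a b : ZMod 12) : Sym2 G12 →₀ ℤ :=
  Finsupp.single (s(Multiplicative.ofAdd a, Multiplicative.ofAdd b) : Sym2 G12) 1

theorem e_comm (a b : ZMod 12) : e a b = e b a := by
  rw [e, e, Sym2.eq_swap]

theorem rel_eq (a b c : ZMod 12) :
    rel (Multiplicative.ofAdd a) (Multiplicative.ofAdd b) (Multiplicative.ofAdd c) =
      e b c + e a (b + c) - e a b - e (a + b) c := rfl

theorem φ_e (a b : ZMod 12) : φ (e a b) = w s(a, b) := φ_single _

theorem e_mem (a b : ZMod 12) (h : s(a, b) ∈ pairs) : e a b ∈ freeOn S12 :=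
  AddSubgroup.subset_closure ⟨_, h, rfl⟩

theorem rel_mem (a b c : ZMod 12) (h : s(a, b) ∈ pairs ∧ s(a + b, c) ∈ pairs ∧ s(b, c) ∈ pairs ∧
    s(a, b + c) ∈ pairs) : e b c + e a (b + c) - e a b - e (a + b) c ∈
      AddSubgroup.closure (survivingRelations S12) := by
  rw [← rel_eq]
  exact AddSubgroup.subset_closure ⟨_, _, _, h.1, h.2.1, h.2.2.1, h.2.2.2, rfl⟩

/-- The element of order two. -/
noncomputable def t : Sym2 G12 →₀ ℤ :=
  e 2 7 + e 4 9 + e 3 11 + e 6 11 + e 1 5 - e 2 3 - e 7 11 - e 4 10 - e 5 6 - e 11 11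

theorem t_mem : t ∈ freeOn S12 := by
  unfold t
  have h := e_mem
  refine sub_mem (sub_mem (sub_mem (sub_mem (sub_mem (add_mem (add_mem (add_mem (add_mem ?_ ?_) ?_) ?_) ?_) ?_) ?_) ?_) ?_) ?_ <;>
    exact h _ _ (by decide)

theorem φ_t : φ t ≠ 0 := by
  unfold t
  simp only [map_sub, map_add, φ_e]
  decide

theorem two_t_mem : t + t ∈ AddSubgroup.closure (survivingRelations S12) := by
  have r0 : e 3 4 + e 2 7 - e 2 3 - e 5 4 ∈ AddSubgroup.closure (survivingRelations S12) :=
    rel_mem 2 3 4 (by decide)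
  have r1 : e 3 8 + e 2 11 - e 2 3 - e 5 8 ∈ AddSubgroup.closure (survivingRelations S12) :=
    rel_mem 2 3 8 (by decide)
  have r2 : e 2 7 + e 4 9 - e 4 2 - e 6 7 ∈ AddSubgroup.closure (survivingRelations S12) :=
    rel_mem 4 2 7 (by decide)
  have r3 : e 3 11 + e 4 2 - e 4 3 - e 7 11 ∈ AddSubgroup.closure (survivingRelations S12) :=
    rel_mem 4 3 11 (by decide)
  have r4 : e 6 11 + e 4 5 - e 4 6 - e 10 11 ∈ AddSubgroup.closure (survivingRelations S12) :=
    rel_mem 4 6 11 (by decide)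
  have r5 : e 10 8 + e 4 6 - e 4 10 - e 2 8 ∈ AddSubgroup.closure (survivingRelations S12) :=
    rel_mem 4 10 8 (by decide)
  have r6 : e 10 11 + e 4 9 - e 4 10 - e 2 11 ∈ AddSubgroup.closure (survivingRelations S12) :=
    rel_mem 4 10 11 (by decide)
  have r7 : e 5 8 + e 5 1 - e 5 5 - e 10 8 ∈ AddSubgroup.closure (survivingRelations S12) :=
    rel_mem 5 5 8 (by decide)
  have r8 : e 6 7 + e 5 1 - e 5 6 - e 11 7 ∈ AddSubgroup.closure (survivingRelations S12) :=
    rel_mem 5 6 7 (by decide)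
  have r9 : e 6 11 + e 5 5 - e 5 6 - e 11 11 ∈ AddSubgroup.closure (survivingRelations S12) :=
    rel_mem 5 6 11 (by decide)
  have r10 : e 3 11 + e 8 2 - e 8 3 - e 11 11 ∈ AddSubgroup.closure (survivingRelations S12) :=
    rel_mem 8 3 11 (by decide)
  have h := (add_mem (add_mem (add_mem (add_mem (add_mem (add_mem (add_mem (add_mem (add_mem (add_mem r0 r1) r2) r3) r4) r5) r6) r7) r8) r9) r10)
  refine (congrArg (· ∈ AddSubgroup.closure (survivingRelations S12)) ?_).mp h
  unfold t
  rw [e_comm 4 2, e_comm 4 3, e_comm 5 1, e_comm 5 4, e_comm 8 2, e_comm 8 3, e_comm 10 8, e_comm 11 7]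
  abel

/-- **The quotient `F_S / ⟨R_S⟩` need not be free abelian.** -/
theorem result : ∃ (G : Type) (_ : CommGroup G) (_ : Finite G) (S : Set (Sym2 G)),
    ¬ Module.Free ℤ (SurvivingQuotient S) := by
  refine ⟨G12, inferInstance, inferInstance, S12, fun hfree => ?_⟩
  let x : SurvivingQuotient S12 := QuotientAddGroup.mk ⟨t, t_mem⟩
  have hne : x ≠ 0 := by
    intro h
    rw [QuotientAddGroup.eq_zero_iff, AddSubgroup.mem_addSubgroupOf] at h
    exact φ_t (φ_rel t h)
  have hx : x + x = 0 := by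
    change (QuotientAddGroup.mk (⟨t, t_mem⟩ + ⟨t, t_mem⟩ : freeOn S12) :
      SurvivingQuotient S12) = 0
    rw [QuotientAddGroup.eq_zero_iff, AddSubgroup.mem_addSubgroupOf]
    exact two_t_mem
  let b := Module.Free.chooseBasis ℤ (SurvivingQuotient S12)
  apply hne
  apply b.repr.injective
  have h := congrArg b.repr hx
  rw [map_add, map_zero] at h
  rw [map_zero]
  ext i
  have hi := DFunLike.congr_fun h i
  simp only [Finsupp.coe_add, Pi.add_apply, Finsupp.coe_zero, Pi.zero_apply] at hi ⊢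
  omega


end Pool.Agent.Results.MP_7c4268_al.NotFree
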